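import Pool.Agent.W525.CB.Stm

/-! # CB-LATZ: the lattice of differentials at a point of `Z` -/

set_option autoImplicit false

open AlgebraicGeometry CategoryTheory Order

namespace Pool.Agent.W179.CB

open Pool.Agent.H187R3 Pool.Agent.W525.CB

theorem D_const {k : Type} [Field k] [IsAlgClosed k] {p : ℕ} [hp : Fact p.Prime] [CharP k p]
    {L : Type} [Field L] [Algebra k L] (c : k) :
    KaehlerDifferential.D ℤ L (algebraMap k L c) = 0 := by
  have : CharP L p := charP_of_injective_algebraMap (algebraMap k L).injective p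
  obtain ⟨b, hb⟩ := IsAlgClosed.exists_pow_nat_eq c hp.out.pos
  rw [← hb, map_pow, Derivation.leibniz_pow, ← Nat.cast_smul_eq_nsmul L, CharP.cast_eq_zero,
    zero_smul]

theorem smul_mem_span {R L : Type} [CommRing R] [Field L] [Algebra R L]
    (N : Submodule R (Ω[L⁄ℤ])) {a : L} (ha : a ∈ (algebraMap R L).range) {w : Ω[L⁄ℤ]}
    (hw : w ∈ N) : a • w ∈ N := by
  obtain ⟨r, rfl⟩ := ha
  rw [algebraMap_smul]
  exact N.smul_mem r hw

theorem main : S_LATZ := by
  intro n k _ _ hp _ L _ _ x hn hx hsum σ R _ _ hA hR hs1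
  have : CharP L (n + 2) := charP_of_injective_algebraMap (algebraMap k L).injective (n + 2)
  have hss : ∀ i, ss x σ i ∈ Algebra.adjoin k (Set.range (ss x σ)) := fun i =>
    Algebra.subset_adjoin ⟨i, rfl⟩
  apply le_antisymm
  · rw [Submodule.span_le]
    rintro w ⟨i, rfl⟩
    obtain ⟨a, ha⟩ := hA _ (hss i.succ.succ)
    apply Submodule.subset_span
    refine ⟨a, ?_⟩
    simp only [ha, cfamZ]
  · set N : Submodule R (Ω[L⁄ℤ]) := Submodule.span R (Set.range (cfamZ x σ)) with hN
    have h0 : ss x σ 0 = 1 := by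
      unfold ss; exact div_self (hx _)
    have hs1' : ss x σ 1 ≠ 0 := by
      unfold ss; exact div_ne_zero (hx _) (hx _)
    have hbig : ∀ i : Fin (n + 1), KaehlerDifferential.D ℤ L (ss x σ i.succ.succ) ∈ N := by
      intro i
      exact Submodule.subset_span ⟨i, rfl⟩
    -- the relation
    have hrel : ∑ i, ss x σ i ^ (2 * n + 5) = 0 := by
      have h1 : ∀ i, ss x σ i ^ (2 * n + 5) = x (σ i) ^ (2 * n + 5) / x (σ 0) ^ (2 * n + 5) := by
        intro i
        unfold ss
        rw [div_pow]
      rw [Finset.sum_congr rfl (fun i _ => h1 i), ← Finset.sum_div,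
        Equiv.sum_comp σ (fun i => x i ^ (2 * n + 5)), hsum, zero_div]
    have hc : ((2 * n + 5 : ℕ) : L) = 1 := by
      have h1 : ((n + 2 : ℕ) : L) = 0 := CharP.cast_eq_zero L (n + 2)
      have h2 : (2 * n + 5 : ℕ) = 2 * (n + 2) + 1 := by ring
      rw [h2, Nat.cast_add, Nat.cast_mul, h1]
      simp
    have hD : ∀ s : L, KaehlerDifferential.D ℤ L (s ^ (2 * n + 5)) =
        s ^ (2 * n + 4) • KaehlerDifferential.D ℤ L s := by
      intro s
      rw [Derivation.leibniz_pow, ← Nat.cast_smul_eq_nsmul L, hc, one_smul]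
      rfl
    have hDrel : ∑ i, ss x σ i ^ (2 * n + 4) • KaehlerDifferential.D ℤ L (ss x σ i) = 0 := by
      have := congrArg (KaehlerDifferential.D ℤ L) hrel
      rw [map_sum, map_zero, Finset.sum_congr rfl (fun i _ => hD _)] at this
      exact this
    rw [Fin.sum_univ_succ, Fin.sum_univ_succ, h0] at hDrel
    have hD1 : KaehlerDifferential.D ℤ L (1 : L) = 0 := Derivation.map_one_eq_zero _
    rw [hD1, smul_zero, zero_add] at hDrel
    have hone : KaehlerDifferential.D ℤ L (ss x σ 1) ∈ N := by
      have e1 : ss x σ (Fin.succ 0) ^ (2 * n + 4) • KaehlerDifferential.D ℤ L (ss x σ (Fin.succ 0)) =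
          -∑ i : Fin (n + 1), ss x σ i.succ.succ ^ (2 * n + 4) •
            KaehlerDifferential.D ℤ L (ss x σ i.succ.succ) := eq_neg_of_add_eq_zero_left hDrel
      have e2 : KaehlerDifferential.D ℤ L (ss x σ 1) = (ss x σ 1)⁻¹ ^ (2 * n + 4) •
          (ss x σ (Fin.succ 0) ^ (2 * n + 4) •
            KaehlerDifferential.D ℤ L (ss x σ (Fin.succ 0))) := by
        have : (Fin.succ 0 : Fin (n + 3)) = 1 := rfl
        rw [this, smul_smul, ← mul_pow, inv_mul_cancel₀ hs1', one_pow, one_smul]
      rw [e2, e1]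
      apply smul_mem_span N (Subring.pow_mem _ hs1 _)
      apply N.neg_mem
      apply N.sum_mem
      intro i _
      exact smul_mem_span N (Subring.pow_mem _ (hA _ (hss _)) _) (hbig i)
    have hall : ∀ i, KaehlerDifferential.D ℤ L (ss x σ i) ∈ N := by
      intro i
      refine Fin.cases ?_ (fun j => ?_) i
      · rw [h0, hD1]; exact N.zero_mem
      · refine Fin.cases ?_ (fun l => ?_) j
        · exact hone
        · exact hbig l
    have hadj : ∀ a ∈ Algebra.adjoin k (Set.range (ss x σ)), KaehlerDifferential.D ℤ L a ∈ N := by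
      intro a ha
      induction ha using Algebra.adjoin_induction with
      | mem a ha =>
        obtain ⟨i, rfl⟩ := ha
        exact hall i
      | algebraMap c =>
        rw [D_const (p := n + 2)]
        exact N.zero_mem
      | add a b _ _ ia ib =>
        rw [map_add]
        exact N.add_mem ia ib
      | mul a b ha hb ia ib =>
        rw [Derivation.leibniz]
        exact N.add_mem (smul_mem_span N (hA _ ha) ib) (smul_mem_span N (hA _ hb) ia)
    unfold diffLattice
    rw [Submodule.span_le]
    rintro w ⟨r, rfl⟩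
    obtain ⟨b, s, hb, hs, hs0, hsi, hr⟩ := hR r
    simp only [SetLike.mem_coe]
    rw [hr, Derivation.leibniz_div]
    apply smul_mem_span N (Subring.pow_mem _ hsi _)
    exact N.sub_mem (smul_mem_span N (hA _ hs) (hadj b hb)) (smul_mem_span N (hA _ hb) (hadj s hs))

end Pool.Agent.W179.CB
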